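import Pool.Agent.T6.H67.FP.Defs

/-!
# Test pairs for algebraically trivial cycles: definitions
-/

open CategoryTheory CategoryTheory.Limits AlgebraicGeometry
open Pool.Agent.H914 Pool.Agent.H914.VarClass Pool.Agent.H914.VarClass.Obj Pool.Agent.R903
open Pool.Agent.T6.H15.BB Pool.Agent.T6.H15.AJ

universe u v w

namespace Pool.Agent.T6.H67.FP

variable {k : Type u} [Field k] {𝒱 : VarClass k}

/-- Closed points have degree one (this holds if `k` is algebraically closed). -/
def PointsHaveDegreeOne (C : ChowTheory.{u, v} 𝒱) : Prop :=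
  ∀ (X : 𝒱.Obj) (x : Pt X), IsClosedPt X x → evalLin (C.deg X) (ptCls C X x) = 1

/-- `T` is a **cofinal** class of curves with two points: for every curve `E` with closed points
`x, y` there are a curve `F` with points `r, s` in the class `T` and a morphism `F → E` which maps
`r` to `x` and `s` to `y`. -/
def IsCofinal (C : ChowTheory.{u, v} 𝒱) (T : PointPair 𝒱 → Prop) : Prop :=
  ∀ s : PointPair 𝒱, ∃ (t : PointPair 𝒱) (f : t.E ⟶ s.E), T t ∧
    MapsPt C f t.x s.x ∧ MapsPt C f t.y s.y

/-- The members `γ_* [r]` and `γ_* [s]` at the two points of the family `γ` of cycles on `X` over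
the curve `F` are equal. -/
def SameMembers (C : ChowTheory.{u, v} 𝒱) (t : PointPair 𝒱) (X : 𝒱.Obj)
    (γ : C.CH (t.E.prod X)) : Prop :=
  corrAct C γ (ptCls C t.E t.x) = corrAct C γ (ptCls C t.E t.y)

/-- `[r] × z = [s] × z` for the two points `r`, `s` of the curve `F`. -/
def SameProducts (C : ChowTheory.{u, v} 𝒱) (t : PointPair 𝒱) (X : 𝒱.Obj) (z : C.CH X) : Prop :=
  extProd C (ptCls C t.E t.x) z = extProd C (ptCls C t.E t.y) z

end Pool.Agent.T6.H67.FP
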