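import Pool.Agent.T6.H15.AJ.ZeroDefs

/-!
# The four-point relation for zero-cycles: definitions

The Chow theories `C` and the Weil cohomology theories `W` are those of the starting file
`Pool.Agent.R903.Chow`; the Abel–Jacobi maps are those of `Pool.Agent.T6.H15.AJ.Defs`.
-/

open CategoryTheory CategoryTheory.Limits AlgebraicGeometry
open Pool.Agent.H914 Pool.Agent.H914.VarClass Pool.Agent.H914.VarClass.Obj Pool.Agent.R903
open Pool.Agent.T6.H15.BB Pool.Agent.T6.H15.AJ

universe u v w

namespace Pool.Agent.T6.H67.FP

section Generic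

variable {A : Type u} [CommRing A]

/-- `a + b = c + d` -/
def FourRel (a b c d : A) : Prop := a + b = c + d

/-- `a = b + c` -/
def IsSumOf (a b c : A) : Prop := a = b + c

/-- `a = 0` -/
def IsNull (a : A) : Prop := a = 0

/-- the value of a linear map -/
def evalLin {M : Type u} {N : Type v} [AddCommMonoid M] [Module ℚ M] [AddCommMonoid N]
    [Module ℚ N] (f : M →ₗ[ℚ] N) (m : M) : N := f m

end Generic

variable {k : Type u} [Field k] {𝒱 : VarClass k}

/-- The points of the scheme `X`. -/
abbrev Pt (X : 𝒱.Obj) : Type u := X.V.X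

/-- The point `x` of the scheme `X`, as a cycle. -/
noncomputable def pointCycle (X : 𝒱.Obj) (x : Pt X) : X.V.Cycles := Finsupp.single x 1

/-- `x` is a closed point of `X`: a point of codimension `dim X`. -/
def IsClosedPt (X : 𝒱.Obj) (x : Pt X) : Prop := Order.coheight x = (X.dim : ℕ∞)

/-- The class `[x]` of the point `x`. -/
noncomputable def ptCls (C : ChowTheory.{u, v} 𝒱) (X : 𝒱.Obj) (x : Pt X) : C.CH X :=
  evalLin (C.cls X) (pointCycle X x)

/-- The **four-point relation** `[(x,x)] + [(y,y)] = [(x,y)] + [(y,x)]` in the group of the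
zero-cycles on `X × X` with rational coefficients modulo rational equivalence. -/
def FourPoint (C : ChowTheory.{u, v} 𝒱) (X : 𝒱.Obj) (x y : Pt X) : Prop :=
  FourRel (extProd C (ptCls C X x) (ptCls C X x)) (extProd C (ptCls C X y) (ptCls C X y))
    (extProd C (ptCls C X x) (ptCls C X y)) (extProd C (ptCls C X y) (ptCls C X x))

/-- A curve with two closed points. -/
structure PointPair (𝒱 : VarClass k) where
  /-- the curve -/
  E : 𝒱.Obj
  /-- the first point -/
  x : Pt E
  /-- the second point -/
  y : Pt E
  dim_eq : E.dim = 1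
  hx : IsClosedPt E x
  hy : IsClosedPt E y

/-- `f` maps the class of the point `x` of `X` to the class of the point `y` of `Y`. -/
def MapsPt (C : ChowTheory.{u, v} 𝒱) {X Y : 𝒱.Obj} (f : X ⟶ Y) (x : Pt X) (y : Pt Y) : Prop :=
  applyLin (C.push f) (ptCls C X x) = ptCls C Y y

/-- Properties of the closed points of the varieties of the class `𝒱`, which hold if `k` is
algebraically closed and `𝒱` contains the smooth projective curves: closed points have degree one,
the diagonal maps `x` to the point `(x, x)`, and two closed points of a variety are joined by an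
irreducible curve (whose normalisation is a smooth projective curve). -/
structure HasPoints (C : ChowTheory.{u, v} 𝒱) : Prop where
  deg : ∀ (X : 𝒱.Obj) (x : Pt X), IsClosedPt X x → evalLin (C.deg X) (ptCls C X x) = 1
  diag : ∀ (X : 𝒱.Obj) (x : Pt X), IsClosedPt X x →
    applyLin (C.push (diag X)) (ptCls C X x) = extProd C (ptCls C X x) (ptCls C X x)
  join : ∀ (X : 𝒱.Obj) (x y : Pt X), IsClosedPt X x → IsClosedPt X y →
    ∃ (t : PointPair 𝒱) (f : t.E ⟶ X), MapsPt C f t.x x ∧ MapsPt C f t.y y

/-- `T` is a **test class** of curves with two points: for all curves `E` and `E'` with points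
`x, y` and `x', y'` there are a curve `F` with points `r`, `s` in the class `T` and a morphism
`F → E × E'` which maps `r` to `(x, x')` and `s` to `(y, y')`. -/
def IsTestClass (C : ChowTheory.{u, v} 𝒱) (T : PointPair 𝒱 → Prop) : Prop :=
  ∀ s s' : PointPair 𝒱, ∃ (t : PointPair 𝒱) (f : t.E ⟶ s.E) (f' : t.E ⟶ s'.E), T t ∧
    MapsPt C f t.x s.x ∧ MapsPt C f t.y s.y ∧ MapsPt C f' t.x s'.x ∧ MapsPt C f' t.y s'.y

end Pool.Agent.T6.H67.FP
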