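import Pool.Agent.T6.H15.AJ.Zero
import Pool.Agent.T6.H67.FP.Defs

/-!
# The four-point relation for zero-cycles
-/

open CategoryTheory CategoryTheory.Limits AlgebraicGeometry
open Pool.Agent.H914 Pool.Agent.H914.VarClass Pool.Agent.H914.VarClass.Obj Pool.Agent.R903
open Pool.Agent.R903.WeilTheory Pool.Agent.T6.H15.BB Pool.Agent.T6.H15.AJ

universe u v w

namespace Pool.Agent.T6.H67.FP

variable {k : Type u} [Field k] {𝒱 : VarClass k} {C : ChowTheory.{u, v} 𝒱}
  {W : WeilTheory.{u, v, w} C} {X Y X' Y' E F : 𝒱.Obj}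

lemma ptCls_mem {x : Pt X} (hx : IsClosedPt X x) : ptCls C X x ∈ C.gr X X.dim := by
  rw [(C.isChowRing X).mem_gr]
  refine ⟨pointCycle X x, ?_, rfl⟩
  intro z hz
  have h : z = x := by
    by_contra hne
    apply hz
    exact Finsupp.single_eq_of_ne (M := ℚ) (α := Pt X) hne
  rw [h]
  exact hx

lemma deg_pt (hp : HasPoints C) {x : Pt X} (hx : IsClosedPt X x) :
    C.deg X (ptCls C X x) = 1 := hp.deg X x hx

lemma exists_points {y : C.CH X} (hy : y ∈ C.gr X X.dim) :
    ∃ (s : Finset (Pt X)) (a : Pt X → ℚ), (∀ x ∈ s, IsClosedPt X x) ∧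
      y = ∑ x ∈ s, a x • ptCls C X x := by
  obtain ⟨z, hz, rfl⟩ := (C.isChowRing X).mem_gr.1 hy
  let z' : Pt X →₀ ℚ := z
  refine ⟨z'.support, z', fun x hx => hz x (Finsupp.mem_support_iff.1 hx), ?_⟩
  have h1 : z = ∑ x ∈ z'.support, z' x • pointCycle X x := by
    have h2 : z' = ∑ x ∈ z'.support, z' x • (Finsupp.single x (1 : ℚ) : Pt X →₀ ℚ) := by
      conv_lhs => rw [← Finsupp.sum_single z']
      rw [Finsupp.sum]
      refine Finset.sum_congr rfl fun x _ => ?_
      rw [Finsupp.smul_single, smul_eq_mul, mul_one]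
    exact h2
  conv_lhs => rw [h1]
  rw [map_sum]
  exact Finset.sum_congr rfl fun x _ => map_smul _ _ _

lemma ext_smul_l (q : ℚ) (x : C.CH X) (y : C.CH Y) : C.ext (q • x) y = q • C.ext x y := by
  rw [ChowTheory.ext, map_smul, smul_mul_assoc, ChowTheory.ext]

lemma ext_smul_r (q : ℚ) (x : C.CH X) (y : C.CH Y) : C.ext x (q • y) = q • C.ext x y := by
  rw [ChowTheory.ext, map_smul, mul_smul_comm, ChowTheory.ext]

lemma ext_neg_l (x : C.CH X) (y : C.CH Y) : C.ext (-x) y = -C.ext x y := by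
  rw [ChowTheory.ext, map_neg, neg_mul, ChowTheory.ext]

lemma ext_neg_r (x : C.CH X) (y : C.CH Y) : C.ext x (-y) = -C.ext x y := by
  rw [ChowTheory.ext, map_neg, mul_neg, ChowTheory.ext]

lemma ext_sub_l (x x' : C.CH X) (y : C.CH Y) : C.ext (x - x') y = C.ext x y - C.ext x' y := by
  rw [sub_eq_add_neg, ext_add_left, ext_neg_l, ← sub_eq_add_neg]

lemma ext_sub_r (x : C.CH X) (y y' : C.CH Y) : C.ext x (y - y') = C.ext x y - C.ext x y' := by
  rw [sub_eq_add_neg, ext_add_right, ext_neg_r, ← sub_eq_add_neg]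

lemma ext_push (f : X ⟶ X') (g : Y ⟶ Y') (x : C.CH X) (y : C.CH Y) (h : C.ext x y = 0) :
    C.ext (C.push f x) (C.push g y) = 0 := by
  rw [← C.act_graph f, ← C.act_graph g, ← act_opMg_ext, ← act_opLg_ext, h, map_zero, map_zero]

/-- the square of `[x] - [y]` and the four-point relation -/
lemma fourPoint_iff (x y : Pt X) :
    FourPoint C X x y ↔
      C.ext (ptCls C X x - ptCls C X y) (ptCls C X x - ptCls C X y) = 0 := by
  rw [FourPoint, FourRel, extProd_eq, extProd_eq, extProd_eq, extProd_eq, ext_sub_l, ext_sub_r,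
    ext_sub_r]
  constructor
  · intro h
    have : C.ext (ptCls C X x) (ptCls C X x) =
        C.ext (ptCls C X x) (ptCls C X y) + C.ext (ptCls C X y) (ptCls C X x) -
          C.ext (ptCls C X y) (ptCls C X y) := by rw [← h]; abel
    rw [this]
    abel
  · intro h
    have : C.ext (ptCls C X x) (ptCls C X x) =
        C.ext (ptCls C X x) (ptCls C X y) + (C.ext (ptCls C X y) (ptCls C X x) -
          C.ext (ptCls C X y) (ptCls C X y)) := by
      rw [← sub_eq_zero, ← h]; abel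
    rw [this]
    abel

lemma deg_sum (hp : HasPoints C) {s : Finset (Pt X)} {a : Pt X → ℚ}
    (hs : ∀ x ∈ s, IsClosedPt X x) :
    C.deg X (∑ x ∈ s, a x • ptCls C X x) = ∑ x ∈ s, a x := by
  rw [map_sum]
  refine Finset.sum_congr rfl fun x hx => ?_
  rw [map_smul, deg_pt hp (hs x hx), smul_eq_mul, mul_one]

lemma homTrivial_diff (hp : HasPoints C) {x y : Pt X} (hx : IsClosedPt X x)
    (hy : IsClosedPt X y) : HomTrivial W X X.dim (ptCls C X x - ptCls C X y) :=
  homTrivial_of_deg (Submodule.sub_mem _ (ptCls_mem hx) (ptCls_mem hy))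
    (by rw [map_sub, deg_pt hp hx, deg_pt hp hy, sub_self])

/-- zero-cycles of degree zero as sums of differences of points -/
lemma eq_sum_diff (hp : HasPoints C) {y : C.CH X} (hy : HomTrivial W X X.dim y) (hy0 : y ≠ 0) :
    ∃ (s : Finset (Pt X)) (a : Pt X → ℚ) (o : Pt X), (∀ x ∈ s, IsClosedPt X x) ∧
      IsClosedPt X o ∧ y = ∑ x ∈ s, a x • (ptCls C X x - ptCls C X o) := by
  obtain ⟨s, a, hs, hy1⟩ := exists_points hy.1
  rcases s.eq_empty_or_nonempty with h | ⟨o, ho⟩
  · rw [h, Finset.sum_empty] at hy1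
    exact absurd hy1 hy0
  · refine ⟨s, a, o, hs, hs o ho, ?_⟩
    have h1 : ∑ x ∈ s, a x = 0 := by
      rw [← deg_sum hp hs, ← hy1]
      exact HomTrivial.deg_self W hy
    simp only [smul_sub]
    rw [Finset.sum_sub_distrib, ← Finset.sum_smul, h1, zero_smul, sub_zero]
    exact hy1

lemma ext_zero_of_points (hp : HasPoints C)
    (h : ∀ (x o : Pt X) (x' o' : Pt Y), IsClosedPt X x → IsClosedPt X o → IsClosedPt Y x' →
      IsClosedPt Y o' → C.ext (ptCls C X x - ptCls C X o) (ptCls C Y x' - ptCls C Y o') = 0)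
    {y : C.CH X} {y' : C.CH Y} (hy : HomTrivial W X X.dim y) (hy' : HomTrivial W Y Y.dim y') :
    C.ext y y' = 0 := by
  by_cases h0 : y = 0
  · rw [h0, ext_zero_left]
  by_cases h0' : y' = 0
  · rw [h0', ext_zero_right]
  obtain ⟨s, a, o, hs, ho, rfl⟩ := eq_sum_diff hp hy h0
  obtain ⟨s', a', o', hs', ho', rfl⟩ := eq_sum_diff hp hy' h0'
  rw [ext_sum_left]
  refine Finset.sum_eq_zero fun x hx => ?_
  rw [ext_sum_right]
  refine Finset.sum_eq_zero fun x' hx' => ?_
  rw [ext_smul_l, ext_smul_r, h x o x' o' (hs x hx) ho (hs' x' hx') ho', smul_zero, smul_zero]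

/-- the four-point relation for the pairs of a test class gives the vanishing of the products of
zero-cycles of degree zero -/
lemma ext_zero_of_test (hp : HasPoints C) {T : PointPair 𝒱 → Prop} (hT : IsTestClass C T)
    (h : ∀ t, T t → FourPoint C t.E t.x t.y) {y : C.CH X} {y' : C.CH Y}
    (hy : HomTrivial W X X.dim y) (hy' : HomTrivial W Y Y.dim y') : C.ext y y' = 0 := by
  refine ext_zero_of_points hp (fun x o x' o' hx ho hx' ho' => ?_) hy hy'
  obtain ⟨s, g, hg1, hg2⟩ := hp.join X x o hx ho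
  obtain ⟨s', g', hg1', hg2'⟩ := hp.join Y x' o' hx' ho'
  obtain ⟨t, f, f', ht, h1, h2, h3, h4⟩ := hT s s'
  have h5 := (fourPoint_iff _ _).1 (h t ht)
  have h6 := ext_push f f' _ _ h5
  have h7 := ext_push g g' _ _ h6
  have e1 : C.push f (ptCls C t.E t.x) = ptCls C s.E s.x := h1
  have e2 : C.push f (ptCls C t.E t.y) = ptCls C s.E s.y := h2
  have e3 : C.push f' (ptCls C t.E t.x) = ptCls C s'.E s'.x := h3
  have e4 : C.push f' (ptCls C t.E t.y) = ptCls C s'.E s'.y := h4
  have e5 : C.push g (ptCls C s.E s.x) = ptCls C X x := hg1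
  have e6 : C.push g (ptCls C s.E s.y) = ptCls C X o := hg2
  have e7 : C.push g' (ptCls C s'.E s'.x) = ptCls C Y x' := hg1'
  have e8 : C.push g' (ptCls C s'.E s'.y) = ptCls C Y o' := hg2'
  rw [map_sub, map_sub, map_sub, map_sub, e1, e2, e3, e4, e5, e6, e7, e8] at h7
  exact h7

theorem four_tfae (hC : C.Polarized) (hP : PointsArePairs C) (hp : HasPoints C) (A : AJTheory W)
    (T : PointPair 𝒱 → Prop) (hT : IsTestClass C T) :
    [ ∀ X : 𝒱.Obj, DomByCurves C X → InjOnHom A X X.dim,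
      ∀ E : 𝒱.Obj, E.dim = 1 → InjOnHom A (E.prod E) 2,
      ∀ (E : 𝒱.Obj) (y : C.CH E), E.dim = 1 → HomTrivial W E 1 y → IsNull (extProd C y y),
      ∀ (X Y : 𝒱.Obj) (x : C.CH X) (y : C.CH Y), HomTrivial W X X.dim x →
        HomTrivial W Y Y.dim y → IsNull (extProd C x y),
      ∀ (X : 𝒱.Obj) (o : Pt X) (z : C.CH X), IsClosedPt X o → HomTrivial W X X.dim z →
        IsSumOf (applyLin (C.push (diag X)) z) (extProd C (ptCls C X o) z)
          (extProd C z (ptCls C X o)),
      ∀ (X : 𝒱.Obj) (x y : Pt X), IsClosedPt X x → IsClosedPt X y → FourPoint C X x y,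
      ∀ t, T t → FourPoint C t.E t.x t.y ].TFAE := by
  have h0 := zero_tfae A hC hP
  have h01 : (∀ X : 𝒱.Obj, DomByCurves C X → InjOnHom A X X.dim) ↔
      ∀ E E' : 𝒱.Obj, E.dim = 1 → E'.dim = 1 → InjOnHom A (E.prod E') 2 := h0.out 1 0
  have h41 : (∀ (X Y : 𝒱.Obj) (m n : ℕ) (x : C.CH X) (y : C.CH Y), AlgTrivial W X m x →
      AlgTrivial W Y n y → extProd C x y = 0) ↔
      ∀ X : 𝒱.Obj, DomByCurves C X → InjOnHom A X X.dim := h0.out 4 1
  tfae_have 1 → 2 := by
    intro h E hE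
    exact h01.1 h E E hE hE
  tfae_have 2 → 3 := by
    intro h E y hE hy
    have h2 : mulExt C E y ∈ C.gr (E.prod (E.prod E)) (E.dim + 1) := mulExt_mem hy.1
    rw [IsNull, extProd_eq, ← act_mulExt]
    refine h E hE _ (hy.act h2 (by rw [hE])) ?_
    rw [aj_act A (c := E.dim + 1) h2 (by rw [hE]) hy]
    exact A.corr_eq_zero 1 2 (E.dim + 1) 1 _ h2 (by rw [hE]) rfl
      ((mulExt_homTrivial hy).kills 1) _
  tfae_have 3 → 7 := by
    intro h t _
    rw [fourPoint_iff]
    have h1 := homTrivial_diff (W := W) hp t.hx t.hy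
    rw [t.dim_eq] at h1
    exact h t.E _ t.dim_eq h1
  tfae_have 7 → 4 := fun h X Y x y hx hy => ext_zero_of_test hp hT h hx hy
  tfae_have 4 → 1 := by
    intro h
    refine h41.1 fun X Y m n x y hx hy => ?_
    obtain ⟨ι, _, E, α, u, hE, hα, hu, rfl⟩ := hx
    obtain ⟨κ, _, E', β, u', hE', hβ, hu', rfl⟩ := hy
    rw [extProd_eq, ext_sum_left]
    refine Finset.sum_eq_zero fun i _ => ?_
    rw [ext_sum_right]
    refine Finset.sum_eq_zero fun j _ => ?_
    have h1 := h (E i) (E' j) (u i) (u' j) (by rw [hE i]; exact hu i) (by rw [hE' j]; exact hu' j)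
    rw [IsNull, extProd_eq] at h1
    rw [corrAct_eq, corrAct_eq, ← act_opMg_ext, ← act_opLg_ext, h1, map_zero, map_zero]
  tfae_have 4 → 5 := by
    intro h X o z ho hz
    have hdeg : C.deg X z = 0 := HomTrivial.deg_self W hz
    obtain ⟨s, a, hs, rfl⟩ := exists_points (C := C) hz.1
    change C.push (diag X) _ = C.ext _ _ + C.ext _ _
    rw [← sub_zero (C.ext (ptCls C X o) _ + _), ← zero_smul ℚ (C.ext (ptCls C X o) (ptCls C X o)),
      ← hdeg, deg_sum hp hs, map_sum, ext_sum_right, ext_sum_left, ← Finset.sum_add_distrib,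
      Finset.sum_smul, ← Finset.sum_sub_distrib]
    refine Finset.sum_congr rfl fun x hx => ?_
    have h1 : C.push (diag X) (ptCls C X x) = C.ext (ptCls C X x) (ptCls C X x) :=
      hp.diag X x (hs x hx)
    have h2 := h X X _ _ (homTrivial_diff (W := W) hp (hs x hx) ho)
      (homTrivial_diff (W := W) hp (hs x hx) ho)
    have h3 := (fourPoint_iff (C := C) x o).2 h2
    rw [FourPoint, FourRel, extProd_eq, extProd_eq, extProd_eq, extProd_eq] at h3
    rw [map_smul, h1, ext_smul_l, ext_smul_r, ← smul_add, ← smul_sub]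
    congr 1
    rw [eq_sub_iff_add_eq, h3, add_comm]
  tfae_have 5 → 6 := by
    intro h X x y hx hy
    have h1 := h X y _ hy (homTrivial_diff (W := W) hp hx hy)
    have h2 : C.push (diag X) (ptCls C X x) = C.ext (ptCls C X x) (ptCls C X x) := hp.diag X x hx
    have h3 : C.push (diag X) (ptCls C X y) = C.ext (ptCls C X y) (ptCls C X y) := hp.diag X y hy
    change C.push (diag X) _ = C.ext _ _ + C.ext _ _ at h1
    rw [map_sub, h2, h3, ext_sub_l, ext_sub_r] at h1
    change C.ext _ _ + C.ext _ _ = C.ext _ _ + C.ext _ _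
    rw [sub_eq_iff_eq_add] at h1
    rw [h1]
    abel
  tfae_have 6 → 7 := fun h t _ => h t.E t.x t.y t.hx t.hy
  tfae_finish

end Pool.Agent.T6.H67.FP
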