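import Pool.Agent.T6.H15.AJ.Main
import Pool.Agent.T6.H67.FP.Main
import Pool.Agent.T6.H67.FP.AlgDefs

/-!
# Test pairs for algebraically trivial cycles
-/

open CategoryTheory CategoryTheory.Limits AlgebraicGeometry
open Pool.Agent.H914 Pool.Agent.H914.VarClass Pool.Agent.H914.VarClass.Obj Pool.Agent.R903
open Pool.Agent.R903.WeilTheory Pool.Agent.T6.H15.BB Pool.Agent.T6.H15.AJ

universe u v w

namespace Pool.Agent.T6.H67.FP

variable {k : Type u} [Field k] {𝒱 : VarClass k} {C : ChowTheory.{u, v} 𝒱}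
  {W : WeilTheory.{u, v, w} C} {X Y X' Y' E F : 𝒱.Obj}

lemma deg_pt' (hp : PointsHaveDegreeOne C) {x : Pt X} (hx : IsClosedPt X x) :
    C.deg X (ptCls C X x) = 1 := hp X x hx

lemma deg_sum' (hp : PointsHaveDegreeOne C) {s : Finset (Pt X)} {a : Pt X → ℚ}
    (hs : ∀ x ∈ s, IsClosedPt X x) :
    C.deg X (∑ x ∈ s, a x • ptCls C X x) = ∑ x ∈ s, a x := by
  rw [map_sum]
  refine Finset.sum_congr rfl fun x hx => ?_
  rw [map_smul, deg_pt' hp (hs x hx), smul_eq_mul, mul_one]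

lemma homTrivial_diff' (hp : PointsHaveDegreeOne C) {x y : Pt X} (hx : IsClosedPt X x)
    (hy : IsClosedPt X y) : HomTrivial W X X.dim (ptCls C X x - ptCls C X y) :=
  homTrivial_of_deg (Submodule.sub_mem _ (ptCls_mem hx) (ptCls_mem hy))
    (by rw [map_sub, deg_pt' hp hx, deg_pt' hp hy, sub_self])

lemma eq_sum_diff' (hp : PointsHaveDegreeOne C) {y : C.CH X} (hy : HomTrivial W X X.dim y)
    (hy0 : y ≠ 0) :
    ∃ (s : Finset (Pt X)) (a : Pt X → ℚ) (o : Pt X), (∀ x ∈ s, IsClosedPt X x) ∧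
      IsClosedPt X o ∧ y = ∑ x ∈ s, a x • (ptCls C X x - ptCls C X o) := by
  obtain ⟨s, a, hs, hy1⟩ := exists_points hy.1
  rcases s.eq_empty_or_nonempty with h | ⟨o, ho⟩
  · rw [h, Finset.sum_empty] at hy1
    exact absurd hy1 hy0
  · refine ⟨s, a, o, hs, hs o ho, ?_⟩
    have h1 : ∑ x ∈ s, a x = 0 := by
      rw [← deg_sum' hp hs, ← hy1]
      exact HomTrivial.deg_self W hy
    simp only [smul_sub]
    rw [Finset.sum_sub_distrib, ← Finset.sum_smul, h1, zero_smul, sub_zero]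
    exact hy1

/-- a linear map which kills the differences of points kills the zero-cycles of degree zero -/
lemma map_zero_of_points (hp : PointsHaveDegreeOne C) {N : Type*} [AddCommGroup N] [Module ℚ N]
    (φ : C.CH E →ₗ[ℚ] N) (hE : E.dim = 1)
    (h : ∀ x o : Pt E, IsClosedPt E x → IsClosedPt E o → φ (ptCls C E x) = φ (ptCls C E o))
    {y : C.CH E} (hy : HomTrivial W E 1 y) : φ y = 0 := by
  by_cases h0 : y = 0
  · rw [h0, map_zero]
  rw [← hE] at hy
  obtain ⟨s, a, o, hs, ho, rfl⟩ := eq_sum_diff' hp hy h0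
  rw [map_sum]
  refine Finset.sum_eq_zero fun x hx => ?_
  rw [map_smul, map_sub, h x o (hs x hx) ho, sub_self, smul_zero]

/-- the external product with a fixed class -/
noncomputable def extRight (C : ChowTheory.{u, v} 𝒱) (X : 𝒱.Obj) {Y : 𝒱.Obj} (z : C.CH Y) :
    C.CH X →ₗ[ℚ] C.CH (X.prod Y) := (C.act (mulExt C X z))

lemma kills_of_members (hp : PointsHaveDegreeOne C) {T : PointPair 𝒱 → Prop} (hT : IsCofinal C T)
    (hE : E.dim = 1) {m : ℕ}
    (h : ∀ t, T t → ∀ γ, HomTrivial W (t.E.prod X) m γ → SameMembers C t X γ)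
    {γ : C.CH (E.prod X)} (hγ : HomTrivial W (E.prod X) m γ) {y : C.CH E}
    (hy : HomTrivial W E 1 y) : C.act γ y = 0 := by
  refine map_zero_of_points (W := W) hp (C.act γ) hE (fun x o hx ho => ?_) hy
  obtain ⟨t, f, ht, h1, h2⟩ := hT ⟨E, x, o, hE, hx, ho⟩
  have h3 := h t ht (C.comp (C.graph f) γ) (HomTrivial.comp_right (C.graph_mem f) hγ
    (by change E.dim + m = m + E.dim; omega))
  have e1 : C.push f (ptCls C t.E t.x) = ptCls C E x := h1
  have e2 : C.push f (ptCls C t.E t.y) = ptCls C E o := h2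
  rw [SameMembers, corrAct_eq, corrAct_eq, C.act_comp, C.act_comp, C.act_graph, C.act_graph, e1,
    e2] at h3
  exact h3

lemma ext_zero_of_products (hp : PointsHaveDegreeOne C) {T : PointPair 𝒱 → Prop}
    (hT : IsCofinal C T) (hE : E.dim = 1) {z : C.CH X}
    (h : ∀ t, T t → SameProducts C t X z) {y : C.CH E} (hy : HomTrivial W E 1 y) :
    C.ext y z = 0 := by
  rw [← act_mulExt]
  refine map_zero_of_points (W := W) hp (C.act (mulExt C E z)) hE (fun x o hx ho => ?_) hy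
  obtain ⟨t, f, ht, h1, h2⟩ := hT ⟨E, x, o, hE, hx, ho⟩
  have h3 : C.ext (ptCls C t.E t.x) z = C.ext (ptCls C t.E t.y) z := h t ht
  have h4 : C.ext (ptCls C t.E t.x - ptCls C t.E t.y) z = 0 := by rw [ext_sub_l, h3, sub_self]
  have h5 := ext_push f (𝟙 X) _ _ h4
  have e1 : C.push f (ptCls C t.E t.x) = ptCls C E x := h1
  have e2 : C.push f (ptCls C t.E t.y) = ptCls C E o := h2
  rw [map_sub, e1, e2, C.push_id, ext_sub_l, sub_eq_zero] at h5
  rw [act_mulExt, act_mulExt]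
  exact h5

lemma act_zero_of_ext {γ : C.CH (E.prod X)} {y : C.CH E} (h : C.ext y γ = 0) : C.act γ y = 0 := by
  have h2 : C.pull (lift (fst E X) (𝟙 (E.prod X))) (C.ext y γ) = C.pull (fst E X) y * γ := by
    rw [ChowTheory.ext, C.pull_mul, ← C.pull_comp, ← C.pull_comp, lift_fst, lift_snd, C.pull_id]
  rw [h, map_zero] at h2
  rw [C.act_apply, mul_comm, ← h2, map_zero]

theorem alg_tfae (hC : C.Polarized) (hp : PointsHaveDegreeOne C) (A : AJTheory W)
    (T : PointPair 𝒱 → Prop) (hT : IsCofinal C T) :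
    [ ∀ (X : 𝒱.Obj) (m : ℕ), InjOnAlg A X m,
      ∀ (X : 𝒱.Obj) (m : ℕ), X.dim + 1 = 2 * m → InjOnAlg A X m,
      ∀ t, T t → ∀ (X : 𝒱.Obj) (m : ℕ) (γ : C.CH (t.E.prod X)),
        HomTrivial W (t.E.prod X) m γ → SameMembers C t X γ,
      ∀ t, T t → ∀ (X : 𝒱.Obj) (m : ℕ) (γ : C.CH (t.E.prod X)), X.dim + 1 = 2 * m →
        HomTrivial W (t.E.prod X) m γ → SameMembers C t X γ,
      ∀ t, T t → ∀ (X : 𝒱.Obj) (m : ℕ) (z : C.CH X), HomTrivial W X m z → SameProducts C t X z,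
      ∀ t, T t → ∀ (X : 𝒱.Obj) (m : ℕ) (z : C.CH X), X.dim = 2 * m → HomTrivial W X m z →
        SameProducts C t X z ].TFAE := by
  tfae_have 1 → 3 := by
    intro h t _ X m γ hγ
    have h1 := (curveCorr_iff A hC).1 h t.E X m γ (ptCls C t.E t.x - ptCls C t.E t.y) t.dim_eq hγ
      (by
        have := homTrivial_diff' (W := W) hp t.hx t.hy
        rwa [t.dim_eq] at this)
    rw [corrAct_eq, map_sub, sub_eq_zero] at h1
    exact h1
  tfae_have 3 → 4 := fun h t ht X m γ _ hγ => h t ht X m γ hγ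
  tfae_have 3 → 5 := by
    intro h t ht X m z hz
    have h1 := h t ht (t.E.prod X) _ _ (mulExt_homTrivial (X := t.E) hz)
    rw [SameMembers, corrAct_eq, corrAct_eq, act_mulExt, act_mulExt] at h1
    exact h1
  tfae_have 5 → 6 := fun h t ht X m z _ hz => h t ht X m z hz
  tfae_have 4 → 2 := by
    intro h X m hX
    refine (injOnAlg_iff A hC X m).2 fun E hE γ y hγ hy => ?_
    exact kills_of_members hp hT hE (fun t ht γ' hγ' => h t ht X m γ' hX hγ') hγ hy
  tfae_have 6 → 2 := by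
    intro h X m hX
    refine (injOnAlg_iff A hC X m).2 fun E hE γ y hγ hy => ?_
    refine act_zero_of_ext (ext_zero_of_products hp hT hE (fun t ht => ?_) hy)
    exact h t ht (E.prod X) m γ (by rw [dim_prod, hE]; omega) hγ
  tfae_have 2 → 1 := middle_all A hC
  tfae_finish

end Pool.Agent.T6.H67.FP
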