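import Pool.Agent.T6.H67.FP.AlgDefs

/-!
# Generating classes of curves with two points: definition
-/

open CategoryTheory CategoryTheory.Limits AlgebraicGeometry
open Pool.Agent.H914 Pool.Agent.H914.VarClass Pool.Agent.H914.VarClass.Obj Pool.Agent.R903
open Pool.Agent.T6.H15.BB Pool.Agent.T6.H15.AJ

universe u v w

namespace Pool.Agent.T6.H67.FP

variable {k : Type u} [Field k] {𝒱 : VarClass k}

/-- The two points of the curve have the same degree. -/
def SameDegree (C : ChowTheory.{u, v} 𝒱) (t : PointPair 𝒱) : Prop :=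
  evalLin (C.deg t.E) (ptCls C t.E t.x) = evalLin (C.deg t.E) (ptCls C t.E t.y)

/-- The divisor class `y` on `E` is a finite sum of classes `γ_* ([r] - [s])`, where `(F, r, s)` is
in the class `T` and `γ` in `CH^1(F × E)`. -/
def GeneratedBy (C : ChowTheory.{u, v} 𝒱) (T : PointPair 𝒱 → Prop) (E : 𝒱.Obj) (y : C.CH E) :
    Prop :=
  ∃ (ι : Type) (_ : Fintype ι) (t : ι → PointPair 𝒱) (γ : ∀ i, C.CH ((t i).E.prod E)),
    (∀ i, T (t i)) ∧ (∀ i, InCH C ((t i).E.prod E) 1 (γ i)) ∧
      y = ∑ i, corrAct C (γ i) (ptCls C (t i).E (t i).x - ptCls C (t i).E (t i).y)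

/-- `T` is a **generating** class of curves with two points of the same degree: the divisor classes
of degree zero on all curves are sums of classes `γ_* ([r] - [s])`, where `(F, r, s)` is in the
class `T`. Example: `k` is a number field and `T` consists of the curves with two rational points. -/
def IsGenerating {C : ChowTheory.{u, v} 𝒱} (W : WeilTheory.{u, v, w} C)
    (T : PointPair 𝒱 → Prop) : Prop :=
  (∀ t, T t → SameDegree C t) ∧
    ∀ (E : 𝒱.Obj) (y : C.CH E), E.dim = 1 → HomTrivial W E 1 y → GeneratedBy C T E y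

end Pool.Agent.T6.H67.FP
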