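import Pool.Agent.T6.H67.FP.Alg
import Pool.Agent.T6.H67.FP.GenDefs

/-!
# Generating classes of curves with two points
-/

open CategoryTheory CategoryTheory.Limits AlgebraicGeometry
open Pool.Agent.H914 Pool.Agent.H914.VarClass Pool.Agent.H914.VarClass.Obj Pool.Agent.R903
open Pool.Agent.R903.WeilTheory Pool.Agent.T6.H15.BB Pool.Agent.T6.H15.AJ

universe u v w

namespace Pool.Agent.T6.H67.FP

variable {k : Type u} [Field k] {𝒱 : VarClass k} {C : ChowTheory.{u, v} 𝒱}
  {W : WeilTheory.{u, v, w} C} {X Y X' Y' E F : 𝒱.Obj}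

theorem gen_tfae (hC : C.Polarized) (A : AJTheory W) (T : PointPair 𝒱 → Prop)
    (hT : IsGenerating W T) :
    [ ∀ (X : 𝒱.Obj) (m : ℕ), InjOnAlg A X m,
      ∀ (X : 𝒱.Obj) (m : ℕ), X.dim + 1 = 2 * m → InjOnAlg A X m,
      ∀ t, T t → ∀ (X : 𝒱.Obj) (m : ℕ) (γ : C.CH (t.E.prod X)),
        HomTrivial W (t.E.prod X) m γ → SameMembers C t X γ,
      ∀ t, T t → ∀ (X : 𝒱.Obj) (m : ℕ) (γ : C.CH (t.E.prod X)), X.dim + 1 = 2 * m →
        HomTrivial W (t.E.prod X) m γ → SameMembers C t X γ,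
      ∀ t, T t → ∀ (X : 𝒱.Obj) (m : ℕ) (z : C.CH X), HomTrivial W X m z → SameProducts C t X z,
      ∀ t, T t → ∀ (X : 𝒱.Obj) (m : ℕ) (z : C.CH X), X.dim = 2 * m → HomTrivial W X m z →
        SameProducts C t X z ].TFAE := by
  tfae_have 1 → 3 := by
    intro h t ht X m γ hγ
    have h1 := (curveCorr_iff A hC).1 h t.E X m γ (ptCls C t.E t.x - ptCls C t.E t.y) t.dim_eq hγ
      (by
        have h2 : C.deg t.E (ptCls C t.E t.x) = C.deg t.E (ptCls C t.E t.y) := hT.1 t ht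
        have h3 : HomTrivial W t.E t.E.dim (ptCls C t.E t.x - ptCls C t.E t.y) :=
          homTrivial_of_deg (Submodule.sub_mem _ (ptCls_mem t.hx) (ptCls_mem t.hy))
            (by rw [map_sub, h2, sub_self])
        rwa [t.dim_eq] at h3)
    rw [corrAct_eq, map_sub, sub_eq_zero] at h1
    exact h1
  tfae_have 3 → 4 := fun h t ht X m γ _ hγ => h t ht X m γ hγ
  tfae_have 3 → 5 := by
    intro h t ht X m z hz
    have h1 := h t ht (t.E.prod X) _ _ (mulExt_homTrivial (X := t.E) hz)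
    rw [SameMembers, corrAct_eq, corrAct_eq, act_mulExt, act_mulExt] at h1
    exact h1
  tfae_have 5 → 6 := fun h t ht X m z _ hz => h t ht X m z hz
  tfae_have 4 → 2 := by
    intro h X m hX
    refine (injOnAlg_iff A hC X m).2 fun E hE γ y hγ hy => ?_
    obtain ⟨ι, _, t, α, ht, hα, rfl⟩ := hT.2 E y hE hy
    rw [corrAct_eq, map_sum]
    refine Finset.sum_eq_zero fun i _ => ?_
    have h3 := h (t i) (ht i) X m (C.comp (α i) γ) hX
      (HomTrivial.comp_right (hα i) hγ (by rw [hE]; omega))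
    rw [SameMembers, corrAct_eq, corrAct_eq] at h3
    rw [corrAct_eq, ← C.act_comp, map_sub, h3, sub_self]
  tfae_have 6 → 2 := by
    intro h X m hX
    refine (injOnAlg_iff A hC X m).2 fun E hE γ y hγ hy => ?_
    refine act_zero_of_ext ?_
    obtain ⟨ι, _, t, α, ht, hα, rfl⟩ := hT.2 E y hE hy
    rw [ext_sum_left]
    refine Finset.sum_eq_zero fun i _ => ?_
    have h3 : C.ext (ptCls C (t i).E (t i).x) γ = C.ext (ptCls C (t i).E (t i).y) γ :=
      h (t i) (ht i) (E.prod X) m γ (by rw [dim_prod, hE]; omega) hγ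
    rw [corrAct_eq, ← act_opMg_ext, ext_sub_l, h3, sub_self, map_zero]
  tfae_have 2 → 1 := middle_all A hC
  tfae_finish

end Pool.Agent.T6.H67.FP
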